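import Pool.Agent.Helper24.EG.Goals

/-!
# Project EG, packet REC: the component of the vertex `0`
-/

set_option autoImplicit false

namespace Pool.Agent.Helper16.EG

open Finset Pool.Agent.Helper24.EG

noncomputable section

open Classical in
/-- the vertices reachable from `0` -/
def cmp {n : ℕ} (G : SimpleGraph (Fin (n + 1))) : Finset (Fin (n + 1)) :=
  univ.filter fun v => G.Reachable 0 v

theorem mem_cmp {n : ℕ} (G : SimpleGraph (Fin (n + 1))) (v : Fin (n + 1)) :
    v ∈ cmp G ↔ G.Reachable 0 v := by
  classical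
  unfold cmp
  simp

open Classical in
theorem sum_cmp {n : ℕ} (G : SimpleGraph (Fin (n + 1))) (w : ℂ) :
    (∑ S : Finset (Fin (n + 1)), if (∀ v, v ∈ S ↔ G.Reachable 0 v) then w else 0) = w := by
  rw [Finset.sum_eq_single (cmp G)]
  · rw [if_pos (mem_cmp G)]
  · intro S _ hS
    rw [if_neg]
    intro h
    apply hS
    ext v
    rw [h v, mem_cmp]
  · intro h
    exact absurd (Finset.mem_univ _) h

theorem insert_sum {n : ℕ} (g : Finset (Fin (n + 1)) → ℂ) (h0 : ∀ S, (0 : Fin (n + 1)) ∉ S → g S = 0) :
    ∑ S : Finset (Fin (n + 1)), g S =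
      ∑ T ∈ (univ.erase (0 : Fin (n + 1))).powerset, g (insert 0 T) := by
  symm
  rw [← Finset.sum_subset (Finset.subset_univ
    ((univ.erase (0 : Fin (n + 1))).powerset.image (insert 0)))]
  · rw [Finset.sum_image]
    intro S hS T hT h
    have hS' : (0 : Fin (n + 1)) ∉ S := fun h1 => by
      have h2 := Finset.mem_powerset.1 hS h1
      simp at h2
    have hT' : (0 : Fin (n + 1)) ∉ T := fun h1 => by
      have h2 := Finset.mem_powerset.1 hT h1
      simp at h2
    have h1 := congrArg (fun U => U.erase (0 : Fin (n + 1))) h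
    simp only [Finset.erase_insert hS', Finset.erase_insert hT'] at h1
    exact h1
  · intro S _ hS
    apply h0
    intro h1
    apply hS
    rw [Finset.mem_image]
    refine ⟨S.erase 0, ?_, Finset.insert_erase h1⟩
    rw [Finset.mem_powerset]
    exact Finset.erase_subset_erase 0 (Finset.subset_univ S)

theorem gREC (hT : G_TRANS) (hG : G_GLUE) : G_REC := by
  classical
  intro n z
  have key : ∀ S : Finset (Fin (n + 1)), (0 : Fin (n + 1)) ∈ S →
      (∑ G : SimpleGraph (Fin (n + 1)), if (∀ v, v ∈ S ↔ G.Reachable 0 v) then wG z G else 0) =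
        Cn S.card z * Wn (n + 1 - S.card) z := by
    intro S hS
    have h1 := hG (Fin (n + 1)) 0 S hS z
    have h2 := (hT {v // v ∈ S} z).2
    have h3 := (hT {v // v ∉ S} z).1
    have c1 : Fintype.card {v // v ∈ S} = S.card := Fintype.card_coe S
    have c2 : Fintype.card {v // v ∉ S} = n + 1 - S.card := by
      rw [Fintype.card_subtype_compl, Fintype.card_fin, Fintype.card_coe]
    rw [c1] at h2
    rw [c2] at h3
    rw [h2, h3] at h1
    refine Eq.trans (Finset.sum_congr rfl fun G _ => ?_) h1
    by_cases hc : ∀ v, v ∈ S ↔ G.Reachable 0 v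
    · rw [if_pos hc, if_pos hc]
    · rw [if_neg hc, if_neg hc]
  have h1 : Wn (n + 1) z = ∑ S : Finset (Fin (n + 1)),
      ∑ G : SimpleGraph (Fin (n + 1)), if (∀ v, v ∈ S ↔ G.Reachable 0 v) then wG z G else 0 := by
    rw [Finset.sum_comm]
    unfold Wn
    refine Finset.sum_congr rfl fun G _ => ?_
    exact (sum_cmp G _).symm
  rw [h1, insert_sum]
  · have h2 : ∀ T ∈ (univ.erase (0 : Fin (n + 1))).powerset,
        (∑ G : SimpleGraph (Fin (n + 1)),
          if (∀ v, v ∈ insert 0 T ↔ G.Reachable 0 v) then wG z G else 0) =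
        (fun j => Cn (j + 1) z * Wn (n - j) z) T.card := by
      intro T hT'
      have h3 : (0 : Fin (n + 1)) ∉ T := fun h1 => by
        have h2 := Finset.mem_powerset.1 hT' h1
        simp at h2
      rw [key _ (Finset.mem_insert_self _ _), Finset.card_insert_of_notMem h3]
      have h4 : n + 1 - (T.card + 1) = n - T.card := by omega
      rw [h4]
    rw [Finset.sum_congr rfl h2]
    have h4 := Finset.sum_powerset_apply_card (fun j => Cn (j + 1) z * Wn (n - j) z)
      (x := univ.erase (0 : Fin (n + 1)))
    refine h4.trans ?_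
    have h3 : (univ.erase (0 : Fin (n + 1))).card = n := by
      rw [Finset.card_erase_of_mem (Finset.mem_univ _), Finset.card_univ, Fintype.card_fin]
      omega
    rw [h3]
    refine Finset.sum_congr rfl fun j _ => ?_
    rw [nsmul_eq_mul, mul_assoc]
  · intro S hS
    refine Finset.sum_eq_zero fun G _ => ?_
    rw [if_neg]
    intro h
    exact hS ((h 0).2 (SimpleGraph.Reachable.refl 0))

end

end Pool.Agent.Helper16.EG
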